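import Mathlib
import Pool.Agent.Q7.RCF

/-!
# A dense subfield of the real closure of `ℚ(t)` in which `ℚ` is relatively algebraically closed

Let `K` be a real closed field which is algebraic over `ℚ(t)`, with `t` infinitely large.  By
Zorn's lemma there is a maximal pair `(F, ψ)` of a field `ℚ(t) ⊆ F ⊆ K` and an embedding
`ψ : F → ℚ((u))` with `ψ t = u` (which does not respect the order).  Then `F` is dense in `K`:
given `c ∈ K` with minimal polynomial `P` of degree `m` over `F`, the polynomial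
`t ^ N * P + ∏_{i < m} (Y - i)` has, for large `N`, a root in `K` close to `c`, and its image under
`ψ` splits over `ℚ((u))` by Hensel's lemma.
-/

set_option autoImplicit false
set_option linter.unusedSectionVars false
set_option linter.unusedVariables false

namespace Pool.Agent.Results.MP_9bb08e_al.DenseSubfield

open Polynomial

/-! ### Elements of `ℚ((u))` that are algebraic over `ℚ` -/

lemma powerSeries_algebraic (p : PowerSeries ℚ) (f : ℚ[X]) (hf : f ≠ 0)
    (h : eval₂ (algebraMap ℚ (PowerSeries ℚ)) p f = 0) :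
    ∃ q : ℚ, algebraMap ℚ (PowerSeries ℚ) q = p := by
  have hint : IsIntegral ℚ p := isAlgebraic_iff_isIntegral.1 ⟨f, hf, h⟩
  have hirr := minpoly.irreducible hint
  have hroot : (minpoly ℚ p).IsRoot (PowerSeries.constantCoeff p) := by
    have h1 := congrArg (PowerSeries.constantCoeff (R := ℚ)) (minpoly.aeval ℚ p)
    rw [map_zero, aeval_def, hom_eval₂] at h1
    have h2 : (PowerSeries.constantCoeff (R := ℚ)).comp (algebraMap ℚ (PowerSeries ℚ)) =
        RingHom.id ℚ := RingHom.ext_rat _ _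
    rw [h2] at h1
    exact h1
  have hdeg : (minpoly ℚ p).natDegree = 1 :=
    natDegree_eq_of_degree_eq_some (degree_eq_one_of_irreducible_of_root hirr hroot)
  exact minpoly.natDegree_eq_one_iff.1 hdeg

lemma laurentSeries_algebraic (ι : ℚ →+* LaurentSeries ℚ) (a : LaurentSeries ℚ) (f : ℚ[X])
    (hf : f ≠ 0) (h : eval₂ ι a f = 0) : ∃ q : ℚ, ι q = a := by
  have hι : ι = (algebraMap (PowerSeries ℚ) (LaurentSeries ℚ)).comp
      (algebraMap ℚ (PowerSeries ℚ)) := RingHom.ext_rat _ _
  have key : ∀ (p : PowerSeries ℚ) (g : ℚ[X]), g ≠ 0 →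
      eval₂ ι (algebraMap (PowerSeries ℚ) (LaurentSeries ℚ) p) g = 0 →
      ∃ q : ℚ, ι q = algebraMap (PowerSeries ℚ) (LaurentSeries ℚ) p := by
    intro p g hg hgp
    rw [hι, ← hom_eval₂] at hgp
    have h0 := (map_eq_zero_iff _ (IsFractionRing.injective (PowerSeries ℚ)
      (LaurentSeries ℚ))).1 hgp
    obtain ⟨q, hq⟩ := powerSeries_algebraic p g hg h0
    refine ⟨q, ?_⟩
    rw [hι, RingHom.comp_apply, hq]
  by_cases ha : a = 0
  · exact ⟨0, by rw [map_zero, ha]⟩
  rcases ValuationRing.isInteger_or_isInteger (PowerSeries ℚ) a with ⟨p, hp⟩ | ⟨p, hp⟩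
  · rw [← hp] at h ⊢
    exact key p f hf h
  · have hinv : eval₂ ι a⁻¹ f.reverse = 0 := by
      let _ : Invertible a := invertibleOfNonzero ha
      have := (eval₂_reverse_eq_zero_iff ι a f).2 h
      rwa [invOf_eq_inv] at this
    rw [← hp] at hinv
    obtain ⟨q, hq⟩ := key p f.reverse (by rwa [Ne, reverse_eq_zero]) hinv
    refine ⟨q⁻¹, ?_⟩
    rw [map_inv₀, hq, hp, inv_inv]

/-! ### Splitting by Hensel's lemma -/

/-- A monic polynomial of degree `m` over `ℚ⟦X⟧` which reduces to `∏_{i < m} (Y - i)` splits over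
`ℚ((X))`. -/
lemma splits_of_reduction {m : ℕ} (G : (PowerSeries ℚ)[X]) (hG : G.Monic)
    (hdeg : G.natDegree = m)
    (hred : G.map (PowerSeries.constantCoeff (R := ℚ)) =
      ∏ i ∈ Finset.range m, (X - C (i : ℚ))) :
    (G.map (algebraMap (PowerSeries ℚ) (LaurentSeries ℚ))).Splits := by
  have hev : ∀ (H : (PowerSeries ℚ)[X]) (i : ℕ),
      PowerSeries.constantCoeff (H.eval (i : PowerSeries ℚ)) =
        (H.map (PowerSeries.constantCoeff (R := ℚ))).eval (i : ℚ) := by
    intro H i
    have h1 := eval₂_at_apply (p := H) (PowerSeries.constantCoeff (R := ℚ)) (i : PowerSeries ℚ)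
    rw [map_natCast] at h1
    rw [eval_map, h1]
  have hsep : (∏ i ∈ Finset.range m, (X - C (i : ℚ))).Separable := by
    rw [separable_prod_X_sub_C_iff']
    intro x _ y _ h
    exact_mod_cast h
  -- the roots
  have hroots : ∀ i ∈ Finset.range m, ∃ α : PowerSeries ℚ, G.IsRoot α ∧
      PowerSeries.constantCoeff α = (i : ℚ) := by
    intro i hi
    have hRi : (∏ i ∈ Finset.range m, (X - C (i : ℚ))).eval (i : ℚ) = 0 := by
      rw [eval_prod]
      exact Finset.prod_eq_zero hi (by simp)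
    have h0 : G.eval (i : PowerSeries ℚ) ∈ Ideal.span {(PowerSeries.X : PowerSeries ℚ)} := by
      rw [Ideal.mem_span_singleton, PowerSeries.X_dvd_iff, hev, hred, hRi]
    have h1 : IsUnit (G.derivative.eval (i : PowerSeries ℚ)) := by
      rw [PowerSeries.isUnit_iff_constantCoeff, hev, ← derivative_map, hred, isUnit_iff_ne_zero]
      have h2 := hsep.eval₂_derivative_ne_zero (RingHom.id ℚ) (x := (i : ℚ)) hRi
      exact h2
    obtain ⟨α, hα, hα'⟩ := HenselianRing.is_henselian
      (I := Ideal.span {(PowerSeries.X : PowerSeries ℚ)}) G hG (i : PowerSeries ℚ) h0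
      (h1.map (Ideal.Quotient.mk _))
    refine ⟨α, hα, ?_⟩
    rw [Ideal.mem_span_singleton, PowerSeries.X_dvd_iff, map_sub, map_natCast, sub_eq_zero] at hα'
    exact hα'
  choose! α hα hα' using hroots
  set ι := algebraMap (PowerSeries ℚ) (LaurentSeries ℚ) with hι
  have hιinj : Function.Injective ι := IsFractionRing.injective _ _
  have hmonic : (G.map ι).Monic := hG.map ι
  have hdegι : (G.map ι).natDegree = m := by rw [hG.natDegree_map, hdeg]
  classical
  set S : Finset (LaurentSeries ℚ) := (Finset.range m).image fun i => ι (α i) with hS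
  have hScard : S.card = m := by
    rw [hS, Finset.card_image_of_injOn, Finset.card_range]
    intro i hi j hj hij
    have h1 : α i = α j := hιinj hij
    have h2 := hα' i hi
    rw [h1, hα' j hj] at h2
    exact_mod_cast h2.symm
  have hle : S.val ≤ (G.map ι).roots := by
    rw [Finset.val_le_iff_val_subset]
    intro x hx
    rw [Finset.mem_val, hS, Finset.mem_image] at hx
    obtain ⟨i, hi, rfl⟩ := hx
    rw [mem_roots hmonic.ne_zero]
    exact (hα i hi).map
  rw [splits_iff_card_roots]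
  apply le_antisymm (card_roots' _)
  rw [hdegι, ← hScard]
  exact Multiset.card_le_card hle

/-- The model polynomial `∏_{i < m} (Y - i)`. -/
noncomputable def modelPoly (R : Type*) [CommRing R] (m : ℕ) : R[X] :=
  ∏ i ∈ Finset.range m, (X - C (i : R))

lemma modelPoly_map {R S : Type*} [CommRing R] [CommRing S] (f : R →+* S) (m : ℕ) :
    (modelPoly R m).map f = modelPoly S m := by
  simp [modelPoly, Polynomial.map_prod]

lemma modelPoly_monic (R : Type*) [CommRing R] (m : ℕ) : (modelPoly R m).Monic :=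
  monic_prod_of_monic _ _ fun _ _ => monic_X_sub_C _

lemma modelPoly_natDegree (R : Type*) [CommRing R] [Nontrivial R] (m : ℕ) :
    (modelPoly R m).natDegree = m := by
  rw [modelPoly, natDegree_prod_of_monic _ _ fun i _ => monic_X_sub_C _]
  simp only [natDegree_X_sub_C, Finset.sum_const, Finset.card_range, smul_eq_mul, mul_one]

/-- If `ψ : F → ℚ((X))` sends `t` to `X` and `P` is monic of degree `m`, then the image of
`t ^ N * P + ∏_{i < m} (Y - i)` splits for large `N`. -/
lemma splits_perturbation {F : Type*} [Field F] (ψ : F →+* LaurentSeries ℚ) (t : F)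
    (ht : ψ t = algebraMap (PowerSeries ℚ) (LaurentSeries ℚ) PowerSeries.X) (P : F[X])
    (hP : P.Monic) :
    ∃ k, ∀ N, k ≤ N → ((C (t ^ N) * P + modelPoly F P.natDegree).map ψ).Splits := by
  set ι := algebraMap (PowerSeries ℚ) (LaurentSeries ℚ) with hι
  have hιinj : Function.Injective ι := IsFractionRing.injective _ _
  set m := P.natDegree with hm
  classical
  obtain ⟨⟨b, hb⟩, hb'⟩ := IsLocalization.exist_integer_multiples_of_finset
    (R := PowerSeries ℚ) (Submonoid.powers (PowerSeries.X : PowerSeries ℚ))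
    (S := LaurentSeries ℚ) ((Finset.range (m + 1)).image fun i => ψ (P.coeff i))
  obtain ⟨k, rfl⟩ := Submonoid.mem_powers_iff _ _ |>.1 hb
  have hcoeff : ∀ i, ∃ c : PowerSeries ℚ, ι c = ι (PowerSeries.X ^ k) * ψ (P.coeff i) := by
    intro i
    rcases Nat.lt_or_ge i (m + 1) with hi | hi
    · obtain ⟨c, hc⟩ := hb' (ψ (P.coeff i))
        (Finset.mem_image_of_mem _ (Finset.mem_range.2 hi))
      exact ⟨c, by rw [hι, hc, Algebra.smul_def]⟩
    · exact ⟨0, by rw [coeff_eq_zero_of_natDegree_lt (by omega), map_zero, map_zero, mul_zero]⟩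
  have hlift : C (ι (PowerSeries.X ^ k)) * P.map ψ ∈ lifts ι := by
    rw [lifts_iff_coeff_lifts]
    intro i
    rw [coeff_C_mul, coeff_map]
    exact hcoeff i
  obtain ⟨H, hH⟩ := mem_lifts _ |>.1 hlift
  have hXk : ι (PowerSeries.X ^ k) ≠ 0 := by
    rw [Ne, map_eq_zero_iff _ hιinj]
    exact pow_ne_zero _ PowerSeries.X_ne_zero
  have hHdeg : H.natDegree = m := by
    rw [← natDegree_map_eq_of_injective hιinj, hH, natDegree_C_mul hXk, hP.natDegree_map]
  have hHcoeff : H.coeff m = PowerSeries.X ^ k := by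
    apply hιinj
    have h1 : (H.map ι).coeff m = ι (PowerSeries.X ^ k) * ψ (P.coeff m) := by
      rw [hH, coeff_C_mul, coeff_map]
    rw [coeff_map] at h1
    rw [h1, hm, hP.coeff_natDegree, map_one, mul_one]
  refine ⟨k + 1, fun N hN => ?_⟩
  obtain ⟨n, rfl⟩ := Nat.exists_eq_add_of_le hN
  set G' : (PowerSeries ℚ)[X] := C (PowerSeries.X ^ (n + 1)) * H + modelPoly _ m with hG'
  have hu : IsUnit (1 + PowerSeries.X ^ (k + 1 + n) : PowerSeries ℚ) := by
    rw [PowerSeries.isUnit_iff_constantCoeff]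
    simp
  obtain ⟨v, hv⟩ := hu.exists_right_inv
  have hcv : PowerSeries.constantCoeff v = (1 : ℚ) := by
    have := congrArg (PowerSeries.constantCoeff (R := ℚ)) hv
    rw [map_mul, map_add, map_one, map_pow, PowerSeries.constantCoeff_X] at this
    simpa using this
  have hG'deg : G'.natDegree ≤ m := by
    refine (natDegree_add_le _ _).trans (max_le ?_ (modelPoly_natDegree _ m).le)
    exact (natDegree_C_mul_le _ _).trans hHdeg.le
  have hG'coeff : G'.coeff m = 1 + PowerSeries.X ^ (k + 1 + n) := by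
    rw [hG', coeff_add, coeff_C_mul, hHcoeff]
    have h2 : (modelPoly (PowerSeries ℚ) m).coeff m = 1 := by
      have := (modelPoly_monic (PowerSeries ℚ) m).coeff_natDegree
      rwa [modelPoly_natDegree] at this
    rw [h2, ← pow_add, add_comm]
    congr 2
    ring
  have hGcoeff : (C v * G').coeff m = 1 := by
    rw [coeff_C_mul, hG'coeff, mul_comm, hv]
  have hGdeg : (C v * G').natDegree ≤ m := (natDegree_C_mul_le _ _).trans hG'deg
  have hGmonic : (C v * G').Monic := monic_of_natDegree_le_of_coeff_eq_one m hGdeg hGcoeff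
  have hGdeg' : (C v * G').natDegree = m :=
    natDegree_eq_of_le_of_coeff_ne_zero hGdeg (by rw [hGcoeff]; exact one_ne_zero)
  have hred : (C v * G').map (PowerSeries.constantCoeff (R := ℚ)) = modelPoly ℚ m := by
    rw [Polynomial.map_mul, map_C, hcv, hG', Polynomial.map_add, Polynomial.map_mul, map_C,
      map_pow, PowerSeries.constantCoeff_X, modelPoly_map]
    simp
  have hs := splits_of_reduction (C v * G') hGmonic hGdeg' hred
  have hfin : (C (t ^ (k + 1 + n)) * P + modelPoly F m).map ψ =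
      C (ι (1 + PowerSeries.X ^ (k + 1 + n))) * (C v * G').map ι := by
    have h1 : C (ι (1 + PowerSeries.X ^ (k + 1 + n))) * (C v * G').map ι = G'.map ι := by
      rw [Polynomial.map_mul, map_C, ← mul_assoc, ← C_mul, ← map_mul, hv, map_one, C_1, one_mul]
    rw [h1, hG', Polynomial.map_add, Polynomial.map_add, Polynomial.map_mul, Polynomial.map_mul,
      map_C, map_C, modelPoly_map, modelPoly_map, hH, ← mul_assoc, ← C_mul, map_pow ψ, ht,
      ← map_pow, ← map_mul, ← pow_add]
    congr 5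
    ring
  rw [hfin]
  exact hs.C_mul _

/-! ### The powers of `t` are cofinal in `K` -/

section Cofinal

variable {K : Type*} [Field K] [LinearOrder K] [IsStrictOrderedRing K]

/-- `x` is bounded by a power of `t`. -/
def Bdd (t x : K) : Prop := ∃ N : ℕ, |x| ≤ t ^ N

variable {t : K}

lemma Bdd.mul {x y : K} (hx : Bdd t x) (hy : Bdd t y) : Bdd t (x * y) := by
  obtain ⟨N, hN⟩ := hx
  obtain ⟨M, hM⟩ := hy
  refine ⟨N + M, ?_⟩
  rw [abs_mul, pow_add]
  exact mul_le_mul hN hM (abs_nonneg y) ((abs_nonneg x).trans hN)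

lemma Bdd.add (ht : 2 ≤ t) {x y : K} (hx : Bdd t x) (hy : Bdd t y) : Bdd t (x + y) := by
  obtain ⟨N, hN⟩ := hx
  obtain ⟨M, hM⟩ := hy
  have h1 : (1 : K) ≤ t := by linarith
  refine ⟨max N M + 1, ?_⟩
  have h2 : t ^ N ≤ t ^ max N M := pow_le_pow_right₀ h1 (le_max_left _ _)
  have h3 : t ^ M ≤ t ^ max N M := pow_le_pow_right₀ h1 (le_max_right _ _)
  have h4 : (0 : K) ≤ t ^ max N M := by positivity
  calc |x + y| ≤ |x| + |y| := abs_add_le _ _
    _ ≤ t ^ max N M * 2 := by linarith
    _ ≤ t ^ max N M * t := mul_le_mul_of_nonneg_left ht h4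
    _ = _ := by rw [pow_succ]

lemma Bdd.of_le {x y : K} (hx : Bdd t x) (h : |y| ≤ |x|) : Bdd t y := by
  obtain ⟨N, hN⟩ := hx
  exact ⟨N, h.trans hN⟩

lemma bdd_zero (ht : 2 ≤ t) : Bdd t 0 := ⟨0, by simp⟩

lemma bdd_sum (ht : 2 ≤ t) {α : Type*} (s : Finset α) (f : α → K) (h : ∀ i ∈ s, Bdd t (f i)) :
    Bdd t (∑ i ∈ s, f i) := by
  classical
  induction s using Finset.induction_on with
  | empty => simpa using bdd_zero ht
  | insert a s ha ih =>
    rw [Finset.sum_insert ha]
    exact (h a (Finset.mem_insert_self _ _)).add ht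
      (ih fun i hi => h i (Finset.mem_insert_of_mem hi))

lemma rat_lt (ht : ∀ n : ℕ, (n : K) < t) (q : ℚ) : (q : K) < t := by
  obtain ⟨n, hn⟩ := exists_nat_gt q
  have h1 : (q : K) ≤ ((n : ℚ) : K) := by exact_mod_cast hn.le
  refine h1.trans_lt ?_
  rw [Rat.cast_natCast]
  exact ht n

lemma bdd_rat (ht : ∀ n : ℕ, (n : K) < t) (q : ℚ) : Bdd t (q : K) := by
  refine ⟨1, ?_⟩
  rw [pow_one, ← Rat.cast_abs]
  exact (rat_lt ht _).le

/-- Upper bound for the value of a polynomial at `t`. -/
lemma abs_eval_le (ht : ∀ n : ℕ, (n : K) < t) (p : ℚ[X]) (d : ℕ) (hd : p.natDegree ≤ d) :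
    ∃ S : ℚ, 0 ≤ S ∧ |eval₂ (Rat.castHom K) t p| ≤ S * t ^ d := by
  have h1 : (1 : K) ≤ t := by
    have := (ht 1).le
    rwa [Nat.cast_one] at this
  refine ⟨∑ i ∈ Finset.range (d + 1), |p.coeff i|, Finset.sum_nonneg fun i _ => abs_nonneg _, ?_⟩
  rw [eval₂_eq_sum_range' (Rat.castHom K) (Nat.lt_succ_of_le hd), Rat.cast_sum, Finset.sum_mul]
  refine (Finset.abs_sum_le_sum_abs _ _).trans (Finset.sum_le_sum fun i hi => ?_)
  rw [abs_mul, abs_pow, abs_of_nonneg (by linarith : (0 : K) ≤ t), Rat.cast_abs]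
  refine mul_le_mul_of_nonneg_left (pow_le_pow_right₀ h1 ?_) (abs_nonneg _)
  have := Finset.mem_range.1 hi
  omega

/-- Lower bound for the value of a nonzero polynomial at `t`. -/
lemma le_abs_eval (ht : ∀ n : ℕ, (n : K) < t) (q : ℚ[X]) (hq : q ≠ 0) :
    ∃ δ : ℚ, 0 < δ ∧ (δ : K) ≤ |eval₂ (Rat.castHom K) t q| := by
  have h1 : (1 : K) ≤ t := by
    have := (ht 1).le
    rwa [Nat.cast_one] at this
  have hc : q.leadingCoeff ≠ 0 := leadingCoeff_ne_zero.2 hq
  obtain ⟨d, hd⟩ : ∃ d, q.natDegree = d := ⟨_, rfl⟩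
  rcases d with _ | d
  · refine ⟨|q.leadingCoeff|, abs_pos.2 hc, ?_⟩
    have h2 : q = C q.leadingCoeff := by
      rw [leadingCoeff, hd]
      exact eq_C_of_natDegree_eq_zero hd
    rw [h2, eval₂_C, leadingCoeff_C, Rat.cast_abs]
    exact le_rfl
  · refine ⟨1, one_pos, ?_⟩
    obtain ⟨S, hS0, hS⟩ := abs_eval_le ht q.eraseLead d
      ((eraseLead_natDegree_le q).trans (by omega))
    have h2 : eval₂ (Rat.castHom K) t q = eval₂ (Rat.castHom K) t q.eraseLead +
        (q.leadingCoeff : K) * t ^ (d + 1) := by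
      conv_lhs => rw [← eraseLead_add_C_mul_X_pow q]
      rw [eval₂_add, eval₂_mul, eval₂_C, eval₂_pow, eval₂_X, hd]
      rfl
    have h3 : (((S + 1) / |q.leadingCoeff| : ℚ) : K) < t := rat_lt ht _
    have hcpos : (0 : K) < ((|q.leadingCoeff| : ℚ) : K) := by exact_mod_cast abs_pos.2 hc
    rw [Rat.cast_div, div_lt_iff₀ hcpos, Rat.cast_add, Rat.cast_one] at h3
    have h4 : (1 : K) ≤ t ^ d := one_le_pow₀ h1
    have h5 : |(q.leadingCoeff : K) * t ^ (d + 1)| = ((|q.leadingCoeff| : ℚ) : K) * t ^ (d + 1) := by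
      rw [abs_mul, abs_of_nonneg (by positivity : (0 : K) ≤ t ^ (d + 1)), Rat.cast_abs]
    have h6 : |(q.leadingCoeff : K) * t ^ (d + 1)| ≤ |eval₂ (Rat.castHom K) t q| +
        |eval₂ (Rat.castHom K) t q.eraseLead| := by
      have : (q.leadingCoeff : K) * t ^ (d + 1) = eval₂ (Rat.castHom K) t q +
        -eval₂ (Rat.castHom K) t q.eraseLead := by rw [h2]; ring
      rw [this]
      refine (abs_add_le _ _).trans ?_
      rw [abs_neg]
    rw [Rat.cast_one]
    rw [h5, pow_succ] at h6
    nlinarith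

/-- All elements of `ℚ(t)` are bounded by powers of `t`. -/
lemma bdd_ratFunc [Algebra (RatFunc ℚ) K]
    (ht : ∀ n : ℕ, (n : K) < algebraMap (RatFunc ℚ) K RatFunc.X) (r : RatFunc ℚ) :
    Bdd (algebraMap (RatFunc ℚ) K RatFunc.X) (algebraMap (RatFunc ℚ) K r) := by
  set t := algebraMap (RatFunc ℚ) K RatFunc.X with htdef
  have h2 : (2 : K) ≤ t := by
    have := (ht 2).le
    rwa [Nat.cast_ofNat] at this
  have h1 : (1 : K) ≤ t := by linarith
  have hcomp : ∀ p : ℚ[X], algebraMap (RatFunc ℚ) K (algebraMap ℚ[X] (RatFunc ℚ) p) =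
      eval₂ (Rat.castHom K) t p := by
    intro p
    have h3 : ((algebraMap (RatFunc ℚ) K).comp (algebraMap ℚ[X] (RatFunc ℚ))) =
        eval₂RingHom (Rat.castHom K) t := by
      refine Polynomial.ringHom_ext' (RingHom.ext_rat _ _) ?_
      simp [htdef]
    exact congrArg (fun f : ℚ[X] →+* K => f p) h3
  rw [← RatFunc.num_div_denom r, map_div₀, hcomp, hcomp, div_eq_mul_inv]
  obtain ⟨S, hS0, hS⟩ := abs_eval_le ht r.num r.num.natDegree le_rfl
  obtain ⟨δ, hδ0, hδ⟩ := le_abs_eval ht r.denom (RatFunc.denom_ne_zero r)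
  have hb1 : Bdd t (eval₂ (Rat.castHom K) t r.num) := by
    have h3 : Bdd t (t ^ r.num.natDegree) :=
      ⟨r.num.natDegree, (abs_of_nonneg (by positivity)).le⟩
    refine ((bdd_rat ht S).mul h3).of_le (hS.trans (le_abs_self _))
  have hb2 : Bdd t (eval₂ (Rat.castHom K) t r.denom)⁻¹ := by
    refine (bdd_rat ht δ⁻¹).of_le ?_
    have hδK : (0 : K) < (δ : K) := by exact_mod_cast hδ0
    rw [abs_inv, Rat.cast_inv, abs_inv, abs_of_pos hδK]
    exact inv_anti₀ hδK hδ
  exact hb1.mul hb2

/-- The powers of `t` are cofinal in `K`. -/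
lemma bdd_all [Algebra (RatFunc ℚ) K] [Algebra.IsAlgebraic (RatFunc ℚ) K]
    (ht : ∀ n : ℕ, (n : K) < algebraMap (RatFunc ℚ) K RatFunc.X) (x : K) :
    Bdd (algebraMap (RatFunc ℚ) K RatFunc.X) x := by
  set t := algebraMap (RatFunc ℚ) K RatFunc.X with htdef
  have h2 : (2 : K) ≤ t := by
    have := (ht 2).le
    rwa [Nat.cast_ofNat] at this
  have h1 : (1 : K) ≤ t := by linarith
  rcases le_or_gt |x| 1 with hx | hx
  · exact ⟨0, by simpa using hx⟩
  have hint : IsIntegral (RatFunc ℚ) x := Algebra.IsIntegral.isIntegral x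
  set f := minpoly (RatFunc ℚ) x with hf
  have hmon : f.Monic := minpoly.monic hint
  have hpos : 0 < f.natDegree := minpoly.natDegree_pos hint
  have h0 : aeval x f = 0 := minpoly.aeval _ _
  obtain ⟨m, hm⟩ : ∃ m, f.natDegree = m + 1 := ⟨f.natDegree - 1, by omega⟩
  rw [aeval_eq_sum_range, hm, Finset.sum_range_succ] at h0
  have hlead : f.coeff (m + 1) = 1 := by rw [← hm]; exact hmon
  rw [hlead, one_smul] at h0
  have h3 : x ^ (m + 1) = -∑ i ∈ Finset.range (m + 1), f.coeff i • x ^ i := by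
    linear_combination h0
  have h4 : |x| ^ m * |x| ≤ |x| ^ m * ∑ i ∈ Finset.range (m + 1),
      |algebraMap (RatFunc ℚ) K (f.coeff i)| := by
    rw [← pow_succ, ← abs_pow, h3, abs_neg, Finset.mul_sum]
    refine (Finset.abs_sum_le_sum_abs _ _).trans (Finset.sum_le_sum fun i hi => ?_)
    rw [Algebra.smul_def, abs_mul, abs_pow, mul_comm]
    refine mul_le_mul_of_nonneg_right (pow_le_pow_right₀ hx.le ?_) (abs_nonneg _)
    have := Finset.mem_range.1 hi
    omega
  have h5 : |x| ≤ ∑ i ∈ Finset.range (m + 1), |algebraMap (RatFunc ℚ) K (f.coeff i)| :=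
    le_of_mul_le_mul_left h4 (pow_pos (by linarith) m)
  refine (bdd_sum h2 (Finset.range (m + 1))
    (fun i => |algebraMap (RatFunc ℚ) K (f.coeff i)|) fun i _ => ?_).of_le
      (h5.trans (le_abs_self _))
  exact (bdd_ratFunc ht (f.coeff i)).of_le (by rw [abs_abs])

lemma exists_lt_pow [Algebra (RatFunc ℚ) K] [Algebra.IsAlgebraic (RatFunc ℚ) K]
    (ht : ∀ n : ℕ, (n : K) < algebraMap (RatFunc ℚ) K RatFunc.X) (x : K) :
    ∃ k, ∀ N, k ≤ N → x < (algebraMap (RatFunc ℚ) K RatFunc.X) ^ N := by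
  set t := algebraMap (RatFunc ℚ) K RatFunc.X with htdef
  obtain ⟨k, hk⟩ := bdd_all ht x
  have h2 : (2 : K) ≤ t := by
    have := (ht 2).le
    rwa [Nat.cast_ofNat] at this
  have h1 : (1 : K) < t := by linarith
  refine ⟨k + 1, fun N hN => ?_⟩
  exact ((le_abs_self x).trans hk).trans_lt (pow_lt_pow_right₀ h1 (by omega))

end Cofinal

/-! ### Sign changes -/

/-- A polynomial changes sign at a simple root. -/
lemma exists_sign_change {K : Type*} [Field K] [LinearOrder K] [IsStrictOrderedRing K]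
    (P : K[X]) {a c b : K} (hac : a < c) (hcb : c < b) (h0 : P.eval c = 0)
    (h1 : P.derivative.eval c ≠ 0) :
    ∃ a' b', a < a' ∧ a' < b' ∧ b' < b ∧ P.eval a' * P.eval b' < 0 := by
  obtain ⟨Q, hQ⟩ := dvd_iff_isRoot.2 h0
  have hQc : Q.eval c ≠ 0 := by
    rw [hQ, derivative_mul] at h1
    simpa using h1
  let _ : TopologicalSpace K := Preorder.topology K
  have _ : OrderTopology K := ⟨rfl⟩
  have hcont : Continuous fun y => Q.eval y * Q.eval c := Q.continuous.mul continuous_const
  have hpos : 0 < Q.eval c * Q.eval c := mul_self_pos.2 hQc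
  have hev : ∀ᶠ y in nhds c, 0 < Q.eval y * Q.eval c :=
    hcont.continuousAt.eventually (lt_mem_nhds hpos)
  obtain ⟨l, u, ⟨hl, hu⟩, hlu⟩ := (mem_nhds_iff_exists_Ioo_subset' ⟨a, hac⟩ ⟨b, hcb⟩).1 hev
  obtain ⟨a', ha', ha'c⟩ := exists_between (max_lt hac hl)
  obtain ⟨b', hb'c, hb'⟩ := exists_between (lt_min hcb hu)
  have ha1 : a < a' := (le_max_left _ _).trans_lt ha'
  have ha2 : l < a' := (le_max_right _ _).trans_lt ha'
  have hb1 : b' < b := hb'.trans_le (min_le_left _ _)
  have hb2 : b' < u := hb'.trans_le (min_le_right _ _)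
  have hqa : 0 < Q.eval a' * Q.eval c := hlu ⟨ha2, ha'c.trans hu⟩
  have hqb : 0 < Q.eval b' * Q.eval c := hlu ⟨hl.trans hb'c, hb2⟩
  refine ⟨a', b', ha1, ha'c.trans hb'c, hb1, ?_⟩
  rw [hQ, eval_mul, eval_mul, eval_sub, eval_sub, eval_X, eval_C, eval_X, eval_C]
  have h2 : 0 < Q.eval a' * Q.eval b' := by
    have h3 := mul_pos hqa hqb
    have h4 : Q.eval a' * Q.eval c * (Q.eval b' * Q.eval c) =
        (Q.eval a' * Q.eval b') * (Q.eval c * Q.eval c) := by ring
    rw [h4] at h3
    exact (mul_pos_iff_of_pos_right hpos).1 h3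
  have h5 : (a' - c) * (b' - c) < 0 :=
    mul_neg_of_neg_of_pos (sub_neg.2 ha'c) (sub_pos.2 hb'c)
  have h6 := mul_neg_of_neg_of_pos h5 h2
  linarith [h6]

/-- An embedding of `ℚ(t)` in `ℚ((u))` sending `t` to `u`. -/
lemma exists_embedding : ∃ φ : RatFunc ℚ →+* LaurentSeries ℚ,
    φ RatFunc.X = algebraMap (PowerSeries ℚ) (LaurentSeries ℚ) PowerSeries.X := by
  set g : ℚ[X] →+* LaurentSeries ℚ := (algebraMap (PowerSeries ℚ) (LaurentSeries ℚ)).comp
    (Polynomial.coeToPowerSeries.ringHom) with hg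
  have hinj : Function.Injective g :=
    (IsFractionRing.injective (PowerSeries ℚ) (LaurentSeries ℚ)).comp
      (Polynomial.coe_injective ℚ)
  refine ⟨IsFractionRing.lift hinj, ?_⟩
  rw [← RatFunc.algebraMap_X, IsFractionRing.lift_algebraMap, hg, RingHom.comp_apply,
    Polynomial.coeToPowerSeries.ringHom_apply, Polynomial.coe_X]

/-- Let `K` be a real closure of the ordered field `ℚ(t)`, `t` infinitely large: a real closed
ordered field, algebraic over `ℚ(t)`, in which `n < t` for all `n ∈ ℕ`.  Then there is a subfield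
`F` of `K` which is dense in `K` and in which `ℚ` is relatively algebraically closed. -/
theorem result (K : Type*) [Field K] [LinearOrder K] [IsStrictOrderedRing K] [IsRealClosed K]
    [Algebra (RatFunc ℚ) K] [Algebra.IsAlgebraic (RatFunc ℚ) K]
    (ht : ∀ n : ℕ, (n : K) < algebraMap (RatFunc ℚ) K RatFunc.X) :
    ∃ F : Subfield K, (∀ a b : K, a < b → ∃ f ∈ F, a < f ∧ f < b) ∧
      ∀ x ∈ F, IsAlgebraic ℚ x → ∃ q : ℚ, (q : K) = x := by
  -- a maximal lift
  obtain ⟨φ, hφ⟩ := exists_embedding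
  let _ : Algebra (RatFunc ℚ) (LaurentSeries ℚ) := φ.toAlgebra
  obtain ⟨σ, hσ⟩ : ∃ σ : IntermediateField.Lifts (RatFunc ℚ) K (LaurentSeries ℚ), IsMax σ :=
    zorn_le fun c hc => by
      obtain ⟨ub, hub⟩ := IntermediateField.Lifts.exists_upper_bound c hc
      exact ⟨ub, hub⟩
  set ψ : σ.carrier →+* LaurentSeries ℚ := σ.emb.toRingHom with hψ
  refine ⟨σ.carrier.toSubfield, fun a b hab => ?_, fun x hx hxalg => ?_⟩
  · -- density
    set c := (a + b) / 2 with hc
    have hac : a < c := by rw [hc]; linarith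
    have hcb : c < b := by rw [hc]; linarith
    have hint : ∀ y : K, IsIntegral σ.carrier y := fun y =>
      (Algebra.IsIntegral.isIntegral (R := RatFunc ℚ) y).tower_top
    set P := minpoly σ.carrier c with hP
    have hPmon : P.Monic := minpoly.monic (hint c)
    set ι := algebraMap σ.carrier K with hι
    have hP0 : (P.map ι).eval c = 0 := by
      rw [eval_map]
      exact minpoly.aeval _ _
    have hP1 : (P.map ι).derivative.eval c ≠ 0 := by
      have hsep : P.Separable := (minpoly.irreducible (hint c)).separable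
      rw [derivative_map, eval_map]
      exact hsep.eval₂_derivative_ne_zero ι (minpoly.aeval _ _)
    obtain ⟨a', b', haa', hab', hbb', hlt⟩ := exists_sign_change (P.map ι) hac hcb hP0 hP1
    set tF : σ.carrier := algebraMap (RatFunc ℚ) σ.carrier RatFunc.X with htF
    set t := algebraMap (RatFunc ℚ) K RatFunc.X with htK
    have htFK : ι tF = t := by
      rw [hι, htF, htK, ← IsScalarTower.algebraMap_apply]
    have hψt : ψ tF = algebraMap (PowerSeries ℚ) (LaurentSeries ℚ) PowerSeries.X := by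
      have h1 : ψ tF = algebraMap (RatFunc ℚ) (LaurentSeries ℚ) RatFunc.X :=
        σ.emb.commutes RatFunc.X
      rw [h1]
      exact hφ
    obtain ⟨k, hk⟩ := splits_perturbation ψ tF hψt P hPmon
    set A := (P.map ι).eval a' with hA
    set B := (P.map ι).eval b' with hB
    have hA0 : A ≠ 0 := by rintro h; rw [h, zero_mul] at hlt; exact lt_irrefl _ hlt
    have hB0 : B ≠ 0 := by rintro h; rw [h, mul_zero] at hlt; exact lt_irrefl _ hlt
    set R := modelPoly K P.natDegree with hR
    obtain ⟨k₁, hk₁⟩ := exists_lt_pow ht (|R.eval a'| / |A|)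
    obtain ⟨k₂, hk₂⟩ := exists_lt_pow ht (|R.eval b'| / |B|)
    set N := max k (max k₁ k₂) with hN
    have hNA := hk₁ N ((le_max_left _ _).trans (le_max_right _ _))
    have hNB := hk₂ N ((le_max_right _ _).trans (le_max_right _ _))
    rw [div_lt_iff₀ (abs_pos.2 hA0)] at hNA
    rw [div_lt_iff₀ (abs_pos.2 hB0)] at hNB
    have hspl := hk N (le_max_left _ _)
    set G := C (tF ^ N) * P + modelPoly σ.carrier P.natDegree with hG
    have hGe : ∀ y : K, (G.map ι).eval y = t ^ N * (P.map ι).eval y + R.eval y := by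
      intro y
      rw [hG, Polynomial.map_add, Polynomial.map_mul, map_C, map_pow, htFK, modelPoly_map,
        eval_add, eval_mul, eval_C]
    have hsign : (G.map ι).eval a' * (G.map ι).eval b' < 0 := by
      rw [hGe, hGe]
      have ha1 := (abs_lt.1 hNA).1
      have ha2 := (abs_lt.1 hNA).2
      have hb1 := (abs_lt.1 hNB).1
      have hb2 := (abs_lt.1 hNB).2
      rcases lt_or_gt_of_ne hA0 with h | h
      · have h' : 0 < B := by
          by_contra h'
          exact absurd hlt (not_lt.2 (mul_nonneg_of_nonpos_of_nonpos h.le (not_lt.1 h')))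
        rw [abs_of_neg h] at ha1 ha2
        rw [abs_of_pos h'] at hb1 hb2
        exact mul_neg_of_neg_of_pos (by linarith) (by linarith)
      · have h' : B < 0 := by
          by_contra h'
          exact absurd hlt (not_lt.2 (mul_nonneg h.le (not_lt.1 h')))
        rw [abs_of_pos h] at ha1 ha2
        rw [abs_of_neg h'] at hb1 hb2
        exact mul_neg_of_pos_of_neg (by linarith) (by linarith)
    obtain ⟨c', hc1, hc2, hc3⟩ := Q7.RCF.exists_root hab' hsign
    refine ⟨c', ?_, haa'.trans hc1, hc2.trans hbb'⟩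
    have hdvd : minpoly σ.carrier c' ∣ G := by
      apply minpoly.dvd
      rw [aeval_def, ← eval_map]
      exact hc3
    have hG0 : G ≠ 0 := by
      rintro h
      rw [h] at hsign
      simp at hsign
    have hs : ((minpoly σ.carrier c').map ψ).Splits :=
      hspl.of_dvd (by rwa [Ne, Polynomial.map_eq_zero]) (Polynomial.map_dvd ψ hdvd)
    obtain ⟨y, hy, hcy⟩ := σ.exists_lift_of_splits' (hint c') hs
    exact (IntermediateField.Lifts.le_iff.1 (hσ hy)).1 hcy
  · -- relative algebraic closedness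
    obtain ⟨f, hf, hfx⟩ := hxalg
    set x' : σ.carrier := ⟨x, hx⟩ with hx'
    have h1 : eval₂ (Rat.castHom σ.carrier) x' f = 0 := by
      apply (algebraMap σ.carrier K).injective
      rw [map_zero, hom_eval₂, ← hfx, aeval_def]
      congr 1
    have h2 : eval₂ (ψ.comp (Rat.castHom σ.carrier)) (ψ x') f = 0 := by
      rw [← hom_eval₂, h1, map_zero]
    obtain ⟨q, hq⟩ := laurentSeries_algebraic _ _ f hf h2
    rw [RingHom.comp_apply] at hq
    have h3 := ψ.injective hq
    refine ⟨q, ?_⟩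
    have h4 := congrArg (algebraMap σ.carrier K) h3
    rw [eq_ratCast, map_ratCast] at h4
    exact h4

end Pool.Agent.Results.MP_9bb08e_al.DenseSubfield
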